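import Pool.Agent.Helper17.FP.Stmts

set_option autoImplicit false

open Finset

namespace Pool.Agent.Helper17.FP

open Pool.Agent.Helper17.SO Pool.Agent.Helper17.SV

theorem biva_omega (r z1 z : ℕ) (hr : 0 < r) (hz1 : 1 ≤ z1) :
    ∑ p ∈ (PP z1 z).filter (fun p => p ∣ r), 1 / (p : ℝ) ≤ Real.log r / Real.log 2 / z1 := by
  have hmem : ∀ p ∈ (PP z1 z).filter (fun p => p ∣ r), z1 < p ∧ p ∈ r.primeFactors := by
    intro p hp
    rw [Finset.mem_filter, PP, Finset.mem_filter, Finset.mem_Ioc] at hp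
    exact ⟨hp.1.1.1, Nat.mem_primeFactors.mpr ⟨hp.1.2, hp.2, hr.ne'⟩⟩
  generalize (PP z1 z).filter (fun p => p ∣ r) = A at hmem
  have hsub : A ⊆ r.primeFactors := fun p hp => (hmem p hp).2
  have h1 : ∏ p ∈ A, p ∣ r :=
    (Finset.prod_dvd_prod_of_subset _ _ _ hsub).trans (Nat.prod_primeFactors_dvd r)
  have h2 : 2 ^ A.card ≤ ∏ p ∈ A, p := by
    rw [← Finset.prod_const]
    refine Finset.prod_le_prod (fun _ _ => Nat.zero_le _) (fun p hp => ?_)
    exact (Nat.prime_of_mem_primeFactors (hsub hp)).two_le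
  have h3 : 2 ^ A.card ≤ r := h2.trans (Nat.le_of_dvd hr h1)
  have h4 : (A.card : ℝ) * Real.log 2 ≤ Real.log r := by
    rw [← Real.log_pow]
    exact Real.log_le_log (by positivity) (by exact_mod_cast h3)
  have hl2 : 0 < Real.log 2 := Real.log_pos (by norm_num)
  have h5 : (A.card : ℝ) ≤ Real.log r / Real.log 2 := (le_div_iff₀ hl2).mpr h4
  have hz : (0 : ℝ) < z1 := by exact_mod_cast hz1
  calc ∑ p ∈ A, 1 / (p : ℝ) ≤ ∑ p ∈ A, 1 / (z1 : ℝ) := by
        refine Finset.sum_le_sum fun p hp => ?_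
        exact one_div_le_one_div_of_le hz (by exact_mod_cast (hmem p hp).1.le)
    _ = A.card * (1 / (z1 : ℝ)) := by rw [Finset.sum_const, nsmul_eq_mul]
    _ = (A.card : ℝ) / z1 := by ring
    _ ≤ Real.log r / Real.log 2 / z1 := by gcongr

theorem biva_E (lam : ℕ) (C2 : ℝ) (r z1 z : ℕ) (hz1 : 2 ≤ z1) (hz : z1 ≤ z)
    (hC : LL z1 z - C2 ≤ ∑ p ∈ PP z1 z, (1 + (jacobiSym (1 - 4 * (lam : ℤ)) p : ℝ)) / p)
    (hs : ∑ p ∈ (PP z1 z).filter (fun p => p ∣ r), 1 / (p : ℝ) ≤ 2) :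
    Real.exp (-∑ p ∈ (∅ : Finset ℕ), 1 / (p : ℝ) -
      ∑ p ∈ (PP z1 z).filter (fun p => ¬ p ∣ r),
        (1 + (jacobiSym (1 - 4 * (lam : ℤ)) p : ℝ)) / p)
      ≤ Real.exp (C2 + 4) * (Real.log z1 / Real.log z) := by
  have hsplit := Finset.sum_filter_add_sum_filter_not (PP z1 z) (fun p => p ∣ r)
    (fun p => (1 + (jacobiSym (1 - 4 * (lam : ℤ)) p : ℝ)) / (p : ℝ))
  have h1 : ∑ p ∈ (PP z1 z).filter (fun p => p ∣ r),
      (1 + (jacobiSym (1 - 4 * (lam : ℤ)) p : ℝ)) / (p : ℝ) ≤ 4 := by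
    have h2 : ∑ p ∈ (PP z1 z).filter (fun p => p ∣ r),
        (1 + (jacobiSym (1 - 4 * (lam : ℤ)) p : ℝ)) / (p : ℝ) ≤
        ∑ p ∈ (PP z1 z).filter (fun p => p ∣ r), 2 * (1 / (p : ℝ)) := by
      refine Finset.sum_le_sum fun p _ => ?_
      have hj : (jacobiSym (1 - 4 * (lam : ℤ)) p : ℝ) ≤ 1 := by
        rcases jacobiSym.trichotomy (1 - 4 * (lam : ℤ)) p with h | h | h <;> rw [h] <;> norm_num
      rw [mul_one_div]
      exact div_le_div_of_nonneg_right (by linarith) (Nat.cast_nonneg p)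
    rw [← Finset.mul_sum] at h2
    linarith
  have hl1 : 0 < Real.log z1 := Real.log_pos (by exact_mod_cast hz1)
  have hl : 0 < Real.log z := Real.log_pos (by exact_mod_cast (hz1.trans hz))
  have hexp : Real.exp (-LL z1 z) = Real.log z1 / Real.log z := by
    rw [LL, Real.exp_neg, Real.exp_log (by positivity), inv_div]
  rw [← hexp, ← Real.exp_add]
  apply Real.exp_le_exp.mpr
  rw [Finset.sum_empty]
  linarith

open scoped Classical in
theorem biva_count (lam : ℕ) (hlam : 1 ≤ lam) (h4 : ST_WNN) (h7 : ST_RED)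
    (x w z1 z Rm : ℕ) (E C1 C3 : ℝ) (hE : 0 ≤ E) (hC1 : 0 ≤ C1) (hC3 : 0 ≤ C3)
    (hz : z ≤ x) (hlz : lam ≤ z1) (S : Finset ℕ)
    (hS : ∀ k ∈ S, k ≤ x ∧ Gd lam w k ∧ ∃ q r : ℕ, ArithF lam q k ∧ x < q ∧
      lam * (q * r) + k = k * k + lam ∧ r ≤ Rm)
    (hSL : ∀ r a : ℕ, 1 ≤ r → r ≤ Rm → ∀ S' : Finset ℕ,
      (∀ k ∈ S', k ≤ x ∧ k % r = a % r ∧ lam < k ∧ Gd lam w k ∧
        ∀ p ∈ (PP z1 z).filter (fun p => ¬ p ∣ r), ¬ FD lam p k) →
      (S'.card : ℝ) ≤ C1 * ((x : ℝ) / r) * E)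
    (hR : ∀ r : ℕ, Odd r → ∀ R : Finset ℕ,
      (∀ a ∈ R, a < r ∧ ((r : ℤ) ∣ (a : ℤ) ^ 2 - a + lam)) →
      (R.card : ℝ) ≤ C3 * (wt lam r : ℝ)) :
    (S.card : ℝ) ≤ C1 * C3 * x * E * ∑ r ∈ Ioc 0 Rm, (wt lam r : ℝ) / r := by
  have hlk : ∀ (q k : ℕ), ArithF lam q k → lam < k := by
    rintro q k ⟨v, n, hk, hn, _⟩
    omega
  have hprop : ∀ (k q r : ℕ), ArithF lam q k → x < q → lam * (q * r) + k = k * k + lam →
      Odd r ∧ ((r : ℤ) ∣ (k : ℤ) ^ 2 - k + lam) ∧
        ∀ p ∈ (PP z1 z).filter (fun p => ¬ p ∣ r), ¬ FD lam p k := by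
    intro k q r hA hxq heq
    obtain ⟨r', hv, hodd, hdvd, _, hFD⟩ :=
      h7 lam q k z (q * r) hlam (hlk q k hA) hA (lt_of_le_of_lt hz hxq) heq
    have hq : 0 < q := by omega
    have hrr : r = r' := Nat.eq_of_mul_eq_mul_left hq hv
    subst hrr
    refine ⟨hodd, hdvd, fun p hp => ?_⟩
    rw [Finset.mem_filter, PP, Finset.mem_filter, Finset.mem_Ioc] at hp
    exact hFD p hp.1.2 hp.1.1.2 (lt_of_le_of_lt hlz hp.1.1.1) hp.2
  have hcover : S ⊆ (Ioc 0 Rm).biUnion (fun r => S.filter (fun k => ∃ q : ℕ, ArithF lam q k ∧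
      x < q ∧ lam * (q * r) + k = k * k + lam)) := by
    intro k hk
    obtain ⟨_, _, q, r, hA, hxq, heq, hr⟩ := hS k hk
    refine Finset.mem_biUnion.mpr ⟨r, Finset.mem_Ioc.mpr ⟨?_, hr⟩,
      Finset.mem_filter.mpr ⟨hk, q, hA, hxq, heq⟩⟩
    rcases Nat.eq_zero_or_pos r with h0 | h0
    · rw [h0, mul_zero, mul_zero, zero_add] at heq
      have h1 := hlk q k hA
      nlinarith
    · exact h0
  have hr1 : ∀ r ∈ Ioc 0 Rm, ((S.filter (fun k => ∃ q : ℕ, ArithF lam q k ∧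
      x < q ∧ lam * (q * r) + k = k * k + lam)).card : ℝ) ≤
        C1 * C3 * x * E * ((wt lam r : ℝ) / r) := by
    intro r hr
    rw [Finset.mem_Ioc] at hr
    have hrpos : (0 : ℝ) < r := by exact_mod_cast hr.1
    have hwt : (0 : ℝ) ≤ (wt lam r : ℝ) := by exact_mod_cast h4 lam r
    generalize hT : S.filter (fun k => ∃ q : ℕ, ArithF lam q k ∧
      x < q ∧ lam * (q * r) + k = k * k + lam) = T
    have hTm : ∀ k ∈ T, k ∈ S ∧ ∃ q : ℕ, ArithF lam q k ∧
      x < q ∧ lam * (q * r) + k = k * k + lam := by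
      intro k hk
      rw [← hT, Finset.mem_filter] at hk
      exact hk
    rcases T.eq_empty_or_nonempty with hTe | ⟨k0, hk0⟩
    · rw [hTe, Finset.card_empty, Nat.cast_zero]
      positivity
    · have hodd : Odd r := by
        obtain ⟨_, q, hA, hxq, heq⟩ := hTm k0 hk0
        exact (hprop k0 q r hA hxq heq).1
      have hmaps : ∀ k ∈ T, k % r ∈ (Finset.range r).filter
          (fun a : ℕ => (r : ℤ) ∣ (a : ℤ) ^ 2 - a + lam) := by
        intro k hk
        obtain ⟨_, q, hA, hxq, heq⟩ := hTm k hk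
        have hd := (hprop k q r hA hxq heq).2.1
        refine Finset.mem_filter.mpr ⟨Finset.mem_range.mpr (Nat.mod_lt _ hr.1), ?_⟩
        have hmod : ((k % r : ℕ) : ℤ) ≡ (k : ℤ) [ZMOD r] := by
          rw [Int.natCast_mod]
          exact Int.mod_modEq _ _
        have h2 : ((k % r : ℕ) : ℤ) ^ 2 - ((k % r : ℕ) : ℤ) + lam ≡
            (k : ℤ) ^ 2 - k + lam [ZMOD r] :=
          ((hmod.pow 2).sub hmod).add_right _
        exact (Int.ModEq.dvd_iff h2).mpr hd
      rw [Finset.card_eq_sum_card_fiberwise (f := fun k : ℕ => k % r)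
        (t := (Finset.range r).filter (fun a : ℕ => (r : ℤ) ∣ (a : ℤ) ^ 2 - a + lam))
        (fun k hk => hmaps k hk)]
      push_cast
      have hfib : ∀ a ∈ (Finset.range r).filter (fun a : ℕ => (r : ℤ) ∣ (a : ℤ) ^ 2 - a + lam),
          ((T.filter (fun k => k % r = a)).card : ℝ) ≤ C1 * ((x : ℝ) / r) * E := by
        intro a ha
        rw [Finset.mem_filter, Finset.mem_range] at ha
        refine hSL r a hr.1 hr.2 _ ?_
        intro k hk
        rw [Finset.mem_filter] at hk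
        obtain ⟨hkS, q, hA, hxq, heq⟩ := hTm k hk.1
        refine ⟨(hS k hkS).1, ?_, hlk q k hA, (hS k hkS).2.1, (hprop k q r hA hxq heq).2.2⟩
        rw [hk.2, Nat.mod_eq_of_lt ha.1]
      refine (Finset.sum_le_card_nsmul _ _ _ hfib).trans ?_
      rw [nsmul_eq_mul]
      have hcard := hR r hodd ((Finset.range r).filter
        (fun a : ℕ => (r : ℤ) ∣ (a : ℤ) ^ 2 - a + lam)) (fun a ha => by
          rw [Finset.mem_filter, Finset.mem_range] at ha
          exact ha)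
      calc _ ≤ (C3 * (wt lam r : ℝ)) * (C1 * ((x : ℝ) / r) * E) :=
            mul_le_mul_of_nonneg_right hcard (by positivity)
        _ = C1 * C3 * x * E * ((wt lam r : ℝ) / r) := by ring
  calc (S.card : ℝ) ≤ (((Ioc 0 Rm).biUnion (fun r => S.filter (fun k => ∃ q : ℕ,
        ArithF lam q k ∧ x < q ∧ lam * (q * r) + k = k * k + lam))).card : ℝ) := by
        exact_mod_cast Finset.card_le_card hcover
    _ ≤ ∑ r ∈ Ioc 0 Rm, ((S.filter (fun k => ∃ q : ℕ,
        ArithF lam q k ∧ x < q ∧ lam * (q * r) + k = k * k + lam)).card : ℝ) := by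
        exact_mod_cast Finset.card_biUnion_le
    _ ≤ ∑ r ∈ Ioc 0 Rm, C1 * C3 * x * E * ((wt lam r : ℝ) / r) := Finset.sum_le_sum hr1
    _ = _ := by rw [← Finset.mul_sum]

theorem biva_half (L : ℝ) (hL : 1024 ≤ L) : L ^ (9 / 10 : ℝ) ≤ L / 2 := by
  have h0 : 0 < L := by linarith
  have h2 : (2 : ℝ) ≤ L ^ (1 / 10 : ℝ) := by
    have h3 : (2 : ℝ) = (1024 : ℝ) ^ (1 / 10 : ℝ) := by
      rw [show (1024 : ℝ) = (2 : ℝ) ^ (10 : ℝ) by norm_num, ← Real.rpow_mul (by norm_num)]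
      norm_num
    rw [h3]
    exact Real.rpow_le_rpow (by norm_num) hL (by norm_num)
  have h4 : L = L ^ (9 / 10 : ℝ) * L ^ (1 / 10 : ℝ) := by
    rw [← Real.rpow_add h0]
    norm_num
  have h5 : 0 ≤ L ^ (9 / 10 : ℝ) := by positivity
  nlinarith

/-- the numerical facts for large `x` -/
theorem biva_num (lam b : ℕ) (hb : 1 ≤ b) (L : ℝ) (hL : 1024 + 8 * lam + 100 * (b : ℝ) ^ 2 ≤ L) :
    L ≤ ((⌈L⌉₊ + 8 * lam + 7 : ℕ) : ℝ) ∧ ((⌈L⌉₊ + 8 * lam + 7 : ℕ) : ℝ) ≤ 2 * L ∧
    L / (8 * b) ≤ Real.log (⌊Real.exp (L / (4 * b))⌋₊ : ℕ) ∧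
    2 * L ≤ (⌊Real.exp (L / (4 * b))⌋₊ : ℕ) ∧
    ((⌊Real.exp (L / (4 * b))⌋₊ : ℕ) : ℝ) ^ b ≤ Real.exp (L / 4) ∧
    L * (2 * L) * Real.exp (L / 2) ≤ Real.exp L := by
  have hbR : (1 : ℝ) ≤ b := by exact_mod_cast hb
  have hlR : (0 : ℝ) ≤ lam := Nat.cast_nonneg lam
  have hL1 : (1024 : ℝ) ≤ L := by nlinarith
  have hLb : 100 * (b : ℝ) ^ 2 ≤ L := by nlinarith
  have h0 : 0 < L := by linarith
  have hb0 : (0 : ℝ) < b := by linarith
  set s : ℝ := L / (8 * b) with hs
  have hs8 : L = 8 * b * s := by rw [hs]; field_simp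
  have hs1 : 12 ≤ s := by
    rw [hs, le_div_iff₀ (by positivity)]
    nlinarith
  have hes : L / (4 * b) = 2 * s := by rw [hs]; field_simp; norm_num
  have hexp2 : Real.exp (2 * s) = Real.exp s ^ 2 := by
    rw [← Real.exp_nat_mul]; norm_num
  have hexps : 2 ≤ Real.exp s := by
    have := Real.add_one_le_exp s
    linarith
  have hfl : Real.exp (2 * s) - 1 < (⌊Real.exp (L / (4 * b))⌋₊ : ℕ) := by
    rw [hes]
    have := Nat.lt_floor_add_one (Real.exp (2 * s))
    linarith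
  have hquad : 1 + 2 * s + (2 * s) ^ 2 / 2 ≤ Real.exp (2 * s) :=
    Real.quadratic_le_exp_of_nonneg (by linarith)
  refine ⟨?_, ?_, ?_, ?_, ?_, ?_⟩
  · push_cast
    have := Nat.le_ceil L
    linarith
  · push_cast
    have := Nat.ceil_lt_add_one h0.le
    nlinarith
  · have h1 : Real.exp s ≤ (⌊Real.exp (L / (4 * b))⌋₊ : ℕ) := by
      refine le_trans ?_ hfl.le
      rw [hexp2]
      nlinarith
    have h2 := Real.log_le_log (Real.exp_pos s) h1
    rwa [Real.log_exp] at h2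
  · refine le_trans ?_ hfl.le
    have h3 : 2 * L ≤ 2 * s ^ 2 := by
      have h4 : 12.5 * b ≤ s := by
        rw [hs, le_div_iff₀ (by positivity)]
        nlinarith
      rw [hs8]
      nlinarith
    nlinarith
  · have h1 : ((⌊Real.exp (L / (4 * b))⌋₊ : ℕ) : ℝ) ≤ Real.exp (L / (4 * b)) :=
      Nat.floor_le (Real.exp_pos _).le
    calc ((⌊Real.exp (L / (4 * b))⌋₊ : ℕ) : ℝ) ^ b ≤ Real.exp (L / (4 * b)) ^ b :=
          pow_le_pow_left₀ (Nat.cast_nonneg _) h1 b
      _ = Real.exp (L / 4) := by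
          rw [← Real.exp_nat_mul]
          congr 1
          field_simp
  · have h1 : Real.exp L = Real.exp (L / 2) * Real.exp (L / 2) := by
      rw [← Real.exp_add]; congr 1; ring
    have h2 : Real.exp (L / 2) = Real.exp (L / 4) ^ 2 := by
      rw [← Real.exp_nat_mul]; congr 1; push_cast; ring
    have h3 : 1 + L / 4 + (L / 4) ^ 2 / 2 ≤ Real.exp (L / 4) :=
      Real.quadratic_le_exp_of_nonneg (by positivity)
    have h4 : L ^ 2 / 32 ≤ Real.exp (L / 4) := by nlinarith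
    have h5 : L * (2 * L) ≤ Real.exp (L / 2) := by
      rw [h2]
      have h6 : (L ^ 2 / 32) ^ 2 ≤ Real.exp (L / 4) ^ 2 :=
        pow_le_pow_left₀ (by positivity) h4 2
      have h7 : L * (2 * L) ≤ (L ^ 2 / 32) ^ 2 := by
        have h8 : (2048 : ℝ) ≤ L ^ 2 := by nlinarith
        have h9 : (L ^ 2 / 32) ^ 2 = L ^ 2 * L ^ 2 / 1024 := by ring
        rw [h9]
        nlinarith [sq_nonneg L]
      exact h7.trans h6
    rw [h1]
    exact mul_le_mul_of_nonneg_right h5 (Real.exp_pos _).le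

theorem st_BIVa (_h1 : SO.ST_MER) (h2 : SO.ST_DENA) (h3 : ST_SL) (h4 : ST_WNN) (h5 : ST_RHO)
    (h6 : ST_WREC) (h7 : ST_RED) : ST_BIVa := by
  intro lam hlam
  obtain ⟨b, C1, hb, hC1, hSL⟩ := h3 lam hlam
  obtain ⟨C2, hC2, hDEN⟩ := h2 lam hlam
  obtain ⟨C3, hC3, hRHO⟩ := h5 lam hlam
  obtain ⟨C4, hC4, hWREC⟩ := h6 lam hlam
  have hbR : (1 : ℝ) ≤ b := by exact_mod_cast hb
  have hlR : (1 : ℝ) ≤ lam := by exact_mod_cast hlam
  obtain ⟨L0, hL0⟩ : ∃ L0 : ℝ, L0 = 1024 + 8 * lam + 100 * (b : ℝ) ^ 2 := ⟨_, rfl⟩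
  have hL0pos : 0 < L0 := by rw [hL0]; positivity
  obtain ⟨K, hK⟩ : ∃ K : ℝ, K = 16 * b * Real.exp (C2 + 4) + 1 := ⟨_, rfl⟩
  have hKpos : 0 < K := by rw [hK]; positivity
  refine ⟨C1 * C3 * C4 * 40 * K + 2 * L0 ^ (1 / 20 : ℝ), by positivity, ?_⟩
  intro x w hx hw S hS
  have hxR : (16 : ℝ) ≤ x := by exact_mod_cast hx
  have hx0 : (0 : ℝ) < x := by linarith
  have hLpos : 0 < Real.log x := Real.log_pos (by linarith)
  have hexpL : Real.exp (Real.log x) = x := Real.exp_log hx0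
  by_cases hbig : L0 ≤ Real.log x
  · -- large `x`
    obtain ⟨L, hLdef⟩ : ∃ L : ℝ, L = Real.log x := ⟨_, rfl⟩
    rw [← hLdef] at hLpos hexpL hbig hw ⊢
    have hL : 1024 + 8 * lam + 100 * (b : ℝ) ^ 2 ≤ L := by rw [← hL0]; exact hbig
    have hL1 : (1024 : ℝ) ≤ L := by nlinarith
    obtain ⟨hz1a, hz1b, hzlog, hz2L, hzb, hexp3⟩ := biva_num lam b hb L hL
    obtain ⟨z1, hz1⟩ : ∃ z1 : ℕ, z1 = ⌈L⌉₊ + 8 * lam + 7 := ⟨_, rfl⟩
    obtain ⟨z, hz⟩ : ∃ z : ℕ, z = ⌊Real.exp (L / (4 * b))⌋₊ := ⟨_, rfl⟩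
    rw [← hz1] at hz1a hz1b
    rw [← hz] at hzlog hz2L hzb
    have hhalf := biva_half L hL1
    obtain ⟨U, hU⟩ : ∃ U : ℝ, U = L ^ (9 / 10 : ℝ) := ⟨_, rfl⟩
    have hU1 : 1 ≤ U := by
      rw [hU]
      exact Real.one_le_rpow (by linarith) (by norm_num)
    rw [← hU] at hhalf
    obtain ⟨Rm, hRm⟩ : ∃ Rm : ℕ, Rm = ⌊Real.exp U⌋₊ := ⟨_, rfl⟩
    have hRmU : (Rm : ℝ) ≤ Real.exp U := by rw [hRm]; exact Nat.floor_le (Real.exp_pos _).le
    have hRm1 : 1 ≤ Rm := by
      rw [hRm]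
      exact Nat.le_floor (by rw [Nat.cast_one]; exact Real.one_le_exp (by linarith))
    have hz1R : (0 : ℝ) < z1 := by linarith
    have hz1z : z1 ≤ z := by exact_mod_cast hz1b.trans hz2L
    have hz12 : 2 ≤ z1 := by rw [hz1]; omega
    have hz18 : 8 * lam + 7 ≤ z1 := by rw [hz1]; omega
    have hlogz1 : Real.log z1 ≤ 2 * Real.log L := by
      have h9 : Real.log z1 ≤ Real.log (L ^ 2) :=
        Real.log_le_log hz1R (hz1b.trans (by nlinarith))
      rw [Real.log_pow] at h9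
      exact_mod_cast h9
    have hlogL : 1 ≤ Real.log L := by
      rw [Real.le_log_iff_exp_le hLpos]
      have := Real.exp_one_lt_d9
      linarith
    have hlogz : 0 < Real.log z := lt_of_lt_of_le (by positivity) hzlog
    have hlz1 : 0 ≤ Real.log z1 := Real.log_nonneg (by linarith)
    obtain ⟨E, hE⟩ : ∃ E : ℝ, E = Real.exp (C2 + 4) * (Real.log z1 / Real.log z) + 1 / (z1 : ℝ) :=
      ⟨_, rfl⟩
    have hE0 : 0 ≤ E := by rw [hE]; positivity
    have hEb : E ≤ K * (Real.log L / L) := by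
      have h9 : Real.log z1 / Real.log z ≤ 16 * b * (Real.log L / L) := by
        calc Real.log z1 / Real.log z ≤ (2 * Real.log L) / (L / (8 * b)) :=
              div_le_div₀ (by positivity) hlogz1 (by positivity) hzlog
          _ = 16 * b * (Real.log L / L) := by field_simp; ring
      have h10 : 1 / (z1 : ℝ) ≤ Real.log L / L := by
        calc 1 / (z1 : ℝ) ≤ 1 / L := one_div_le_one_div_of_le hLpos hz1a
          _ ≤ Real.log L / L := div_le_div_of_nonneg_right hlogL hLpos.le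
      rw [hE, hK]
      have h11 := mul_le_mul_of_nonneg_left h9 (Real.exp_pos (C2 + 4)).le
      nlinarith
    have hexpU : Real.exp U ≤ Real.exp (L / 2) := Real.exp_le_exp.mpr hhalf
    have hzx : z ≤ x := by
      have h9 : (z : ℝ) ≤ (z : ℝ) ^ b := by
        have h12 : (1 : ℝ) ≤ z := by linarith
        exact le_self_pow₀ h12 (by omega)
      have h13 : (z : ℝ) ≤ x := by
        rw [← hexpL]
        exact (h9.trans hzb).trans (Real.exp_le_exp.mpr (by linarith))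
      exact_mod_cast h13
    have hcount := biva_count lam hlam h4 h7 x w z1 z Rm E C1 C3 hE0 hC1.le hC3.le hzx
      (by omega) S (fun k hk => by
        obtain ⟨hkx, hG, q, r, hA, hxq, heq, hr⟩ := hS k hk
        refine ⟨hkx, hG, q, r, hA, hxq, heq, ?_⟩
        rw [hRm]
        refine Nat.le_floor ?_
        rw [hU, hLdef]
        exact hr) (fun r a hr1 hr2 S' hS' => by
        have hrR : (0 : ℝ) < r := by exact_mod_cast hr1
        have hrU : (r : ℝ) ≤ Real.exp (L / 2) :=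
          le_trans (by exact_mod_cast hr2) (hRmU.trans hexpU)
        have hzbr : z ^ b * r ≤ x := by
          have h14 : ((z ^ b * r : ℕ) : ℝ) ≤ x := by
            push_cast
            calc (z : ℝ) ^ b * r ≤ Real.exp (L / 4) * Real.exp (L / 2) :=
                  mul_le_mul hzb hrU hrR.le (Real.exp_pos _).le
              _ = Real.exp (L / 4 + L / 2) := by rw [Real.exp_add]
              _ ≤ Real.exp L := Real.exp_le_exp.mpr (by linarith)
              _ = x := hexpL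
          exact_mod_cast h14
        have hwz : w * z1 * r ≤ x := by
          have h14 : ((w * z1 * r : ℕ) : ℝ) ≤ x := by
            push_cast
            calc (w : ℝ) * z1 * r ≤ L * (2 * L) * Real.exp (L / 2) := by
                  refine mul_le_mul (mul_le_mul hw hz1b hz1R.le hLpos.le) hrU hrR.le
                    (by positivity)
              _ ≤ Real.exp L := hexp3
              _ = x := hexpL
          exact_mod_cast h14
        have hsum : ∑ p ∈ (PP z1 z).filter (fun p => p ∣ r), 1 / (p : ℝ) ≤ 2 := by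
          refine (biva_omega r z1 z hr1 (by omega)).trans ?_
          have hl2 : 1 / 2 < Real.log 2 := by
            have := Real.log_two_gt_d9
            linarith
          have hlr : Real.log r ≤ L := by
            have := Real.log_le_log hrR hrU
            rw [Real.log_exp] at this
            linarith
          rw [div_div, div_le_iff₀ (by positivity)]
          nlinarith
        have h15 := hSL x r a z1 z w ∅ ((PP z1 z).filter (fun p => ¬ p ∣ r)) hz18 hz1z hr1 hzbr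
          hwz (Finset.empty_subset _) (Finset.filter_subset _ _)
          (fun p hp => absurd hp (Finset.notMem_empty p))
          (fun p hp => (Finset.mem_filter.mp hp).2) S'
          (fun k hk => by
            obtain ⟨g1, g2, g3, g4, g5⟩ := hS' k hk
            exact ⟨g1, g2, g3, g4, fun p hp => absurd hp (Finset.notMem_empty p), g5⟩)
        refine h15.trans ?_
        have h16 := biva_E lam C2 r z1 z hz12 hz1z (hDEN z1 z hz12 hz1z) hsum
        have h17 : 0 ≤ C1 * ((x : ℝ) / r) := by positivity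
        refine mul_le_mul_of_nonneg_left ?_ h17
        rw [hE]
        linarith) hRHO
    have hsumw : ∑ r ∈ Ioc 0 Rm, (wt lam r : ℝ) / r ≤ C4 * (2 * U) := by
      refine (hWREC Rm hRm1).trans ?_
      refine mul_le_mul_of_nonneg_left ?_ hC4.le
      have h9 : Real.log Rm ≤ U := by
        have := Real.log_le_log (by exact_mod_cast hRm1) hRmU
        rwa [Real.log_exp] at this
      linarith
    have hlogrp : Real.log L ≤ 20 * L ^ (1 / 20 : ℝ) := by
      have := Real.log_le_rpow_div hLpos.le (by norm_num : (0 : ℝ) < 1 / 20)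
      rw [div_eq_mul_inv] at this
      norm_num at this
      linarith
    have hpow : L ^ (1 / 20 : ℝ) * U / L = L ^ (-(1 / 20) : ℝ) := by
      rw [hU, ← Real.rpow_add hLpos, div_eq_mul_inv, ← Real.rpow_neg_one L,
        ← Real.rpow_add hLpos]
      norm_num
    calc (S.card : ℝ) ≤ C1 * C3 * x * E * ∑ r ∈ Ioc 0 Rm, (wt lam r : ℝ) / r := hcount
      _ ≤ C1 * C3 * x * (K * (20 * L ^ (1 / 20 : ℝ) / L)) * (C4 * (2 * U)) := by
          refine mul_le_mul ?_ hsumw ?_ (by positivity)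
          · refine mul_le_mul_of_nonneg_left (hEb.trans ?_) (by positivity)
            refine mul_le_mul_of_nonneg_left ?_ hKpos.le
            exact div_le_div_of_nonneg_right hlogrp hLpos.le
          · refine Finset.sum_nonneg fun r _ => ?_
            have : (0 : ℝ) ≤ (wt lam r : ℝ) := by exact_mod_cast h4 lam r
            positivity
      _ = C1 * C3 * C4 * 40 * K * x * (L ^ (1 / 20 : ℝ) * U / L) := by ring
      _ = C1 * C3 * C4 * 40 * K * x * L ^ (-(1 / 20) : ℝ) := by rw [hpow]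
      _ ≤ (C1 * C3 * C4 * 40 * K + 2 * L0 ^ (1 / 20 : ℝ)) * x * L ^ (-(1 / 20) : ℝ) := by
          refine mul_le_mul_of_nonneg_right ?_ (by positivity)
          refine mul_le_mul_of_nonneg_right ?_ hx0.le
          have : 0 ≤ 2 * L0 ^ (1 / 20 : ℝ) := by positivity
          linarith
  · -- small `x`
    have hsub : S ⊆ Finset.range (x + 1) := by
      intro k hk
      have := (hS k hk).1
      exact Finset.mem_range.mpr (by omega)
    have hcard : (S.card : ℝ) ≤ 2 * x := by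
      have h9 := Finset.card_le_card hsub
      rw [Finset.card_range] at h9
      have h10 : (S.card : ℝ) ≤ x + 1 := by exact_mod_cast h9
      linarith
    have hge : 1 ≤ L0 ^ (1 / 20 : ℝ) * (Real.log x) ^ (-(1 / 20) : ℝ) := by
      rw [Real.rpow_neg hLpos.le, ← div_eq_mul_inv, one_le_div (by positivity)]
      exact Real.rpow_le_rpow hLpos.le (not_le.mp hbig).le (by norm_num)
    calc (S.card : ℝ) ≤ 2 * x * 1 := by linarith
      _ ≤ 2 * x * (L0 ^ (1 / 20 : ℝ) * (Real.log x) ^ (-(1 / 20) : ℝ)) :=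
          mul_le_mul_of_nonneg_left hge (by positivity)
      _ = 2 * L0 ^ (1 / 20 : ℝ) * x * (Real.log x) ^ (-(1 / 20) : ℝ) := by ring
      _ ≤ (C1 * C3 * C4 * 40 * K + 2 * L0 ^ (1 / 20 : ℝ)) * x *
          (Real.log x) ^ (-(1 / 20) : ℝ) := by
          refine mul_le_mul_of_nonneg_right ?_ (by positivity)
          refine mul_le_mul_of_nonneg_right ?_ hx0.le
          have : 0 ≤ C1 * C3 * C4 * 40 * K := by positivity
          linarith

end Pool.Agent.Helper17.FP
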